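import Pool.Agent.Helper67.BT.Stmts

/-!
Module CUT of the project BT: the cut lemma.
-/

open Finset MeasureTheory

namespace Pool.Agent.Helper67.BT

theorem cut_pr_apply {k : ℕ} (S : Finset (Fin k)) (x : E k) (l : Fin k) :
    pr S x l = if l ∈ S then x l else 0 := rfl

theorem cut_le {k : ℕ} (S : Finset (Fin k)) (x : E k) (l : Fin k) (hl : l ∈ S) :
    |x l| ≤ ‖pr S x‖ := by
  have h := PiLp.norm_apply_le (pr S x) l
  rw [Real.norm_eq_abs] at h
  have h2 : pr S x l = x l := by rw [cut_pr_apply, if_pos hl]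
  rwa [h2] at h

theorem cut_sq {k : ℕ} (S : Finset (Fin k)) (x : E k) :
    ‖pr S x‖ ^ 2 + ‖pr Sᶜ x‖ ^ 2 = ‖x‖ ^ 2 := by
  rw [EuclideanSpace.real_norm_sq_eq, EuclideanSpace.real_norm_sq_eq,
    EuclideanSpace.real_norm_sq_eq, ← Finset.sum_add_distrib]
  apply Finset.sum_congr rfl
  intro l _
  rw [cut_pr_apply, cut_pr_apply]
  by_cases h : l ∈ S
  · rw [if_pos h, if_neg (by simp [h])]
    ring
  · rw [if_neg h, if_pos (by simp [h])]
    ring

theorem cut_kap {n k : ℕ} (c : Cfg n k) (S : Finset (Fin k)) : kap c Sᶜ = kap c S := by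
  unfold kap
  rw [compl_compl]
  apply Finset.sum_congr rfl
  intro i _
  ring

theorem cut_kap_nonneg {n k : ℕ} (c : Cfg n k) (S : Finset (Fin k)) : 0 ≤ kap c S := by
  unfold kap
  apply Finset.sum_nonneg
  intro i _
  have := c.s0 i
  positivity

theorem cut_iso {n k : ℕ} (c : Cfg n k) (l l' : Fin k) (h : l ≠ l') :
    ∑ i, c.s i * c.e i l * c.e i l' = 0 := by
  have h1 := c.iso (EuclideanSpace.single l (1 : ℝ)) (EuclideanSpace.single l' (1 : ℝ))
  simp only [EuclideanSpace.inner_single_right, one_mul, conj_trivial] at h1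
  rw [h1]
  simp [h]

/-- the expansion -/
theorem cut_Q {n k : ℕ} (c : Cfg n k) {p : ℝ} (hp : 2 < p) (hp3 : p ≤ 3) (l l' : Fin k)
    (h : l ≠ l') : Q c p l l' =
    p * ∑ i, c.s i * c.e i l * c.e i l' * av c p fun x => om p (c.z i x) * (x l * x l') := by
  unfold Q
  congr 1
  have h1 : ∀ i, (av c p fun x => |c.z i x| ^ (p - 2) * (x l * x l')) =
      (av c p fun x => om p (c.z i x) * (x l * x l')) + av c p fun x => x l * x l' := by
    intro i
    rw [← av_add c hp.le hp3 (PG_mul (PG_om (PG_z c i) hp.le) (PG_mul (PG_coord l) (PG_coord l')))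
      (PG_mul (PG_coord l) (PG_coord l'))]
    congr 1
    funext x
    unfold om
    ring
  have h2 : ∀ i, c.s i * c.e i l * c.e i l' *
      (av c p fun x => |c.z i x| ^ (p - 2) * (x l * x l')) =
      c.s i * c.e i l * c.e i l' * (av c p fun x => om p (c.z i x) * (x l * x l')) +
      c.s i * c.e i l * c.e i l' * av c p fun x => x l * x l' := by
    intro i
    rw [h1 i]
    ring
  rw [Finset.sum_congr rfl fun i _ => h2 i, Finset.sum_add_distrib, ← Finset.sum_mul,
    cut_iso c l l' h, zero_mul, add_zero]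

theorem st_CUT (h1 : ST_TBB) : ST_CUT := by
  intro k
  obtain ⟨K, hK, hT⟩ := h1 k
  refine ⟨3 * K * (2 + Real.sqrt k), ?_, ?_⟩
  · have : 0 ≤ Real.sqrt k := Real.sqrt_nonneg _
    nlinarith
  intro n c p S l l' hp hp3 hl hl'
  have hne : l ≠ l' := fun h => hl' (h ▸ hl)
  set κ : ℝ := kap c S with hκ
  have hκ0 : 0 ≤ κ := cut_kap_nonneg c S
  have hK0 : 0 ≤ K := by linarith
  have hp2 : 0 ≤ p - 2 := by linarith
  set A : Fin n → ℝ := fun i => ‖pr S (c.e i)‖ with hA
  set B : Fin n → ℝ := fun i => ‖pr Sᶜ (c.e i)‖ with hB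
  have hA0 : ∀ i, 0 ≤ A i := fun i => norm_nonneg _
  have hB0 : ∀ i, 0 ≤ B i := fun i => norm_nonneg _
  have hAB : ∀ i, A i ^ 2 + B i ^ 2 = 1 := by
    intro i
    have := cut_sq S (c.e i)
    rw [c.e1 i, one_pow] at this
    exact this
  have hl'c : l' ∈ Sᶜ := by simp [hl']
  have hlc : l ∉ Sᶜ := by simp [hl]
  -- the bound for the averages
  have hTi : ∀ i, |av c p fun x => om p (c.z i x) * (x l * x l')| ≤
      K * (p - 2) * (2 * (A i * B i) + Real.sqrt κ) := by
    intro i
    have hAB1 := hAB i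
    rcases le_or_gt (1 / 2) (A i ^ 2) with h | h
    · refine (hT n c p S l l' i hp hp3 hl hl' h).trans ?_
      apply mul_le_mul_of_nonneg_left _ (by positivity)
      have h3 : 1 / 2 ≤ A i := by
        by_contra hcon
        push Not at hcon
        have := hA0 i
        nlinarith
      have h4 : B i ≤ 2 * (A i * B i) := by nlinarith [hB0 i]
      show B i + Real.sqrt κ ≤ _
      linarith
    · have h' : 1 / 2 ≤ B i ^ 2 := by linarith
      have h5 := hT n c p Sᶜ l' l i hp hp3 hl'c hlc h'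
      rw [cut_kap, compl_compl] at h5
      have h6 : (fun x : E k => om p (c.z i x) * (x l * x l')) =
          fun x : E k => om p (c.z i x) * (x l' * x l) := by
        funext x; ring
      rw [h6]
      refine h5.trans ?_
      apply mul_le_mul_of_nonneg_left _ (by positivity)
      have h3 : 1 / 2 ≤ B i := by
        by_contra hcon
        push Not at hcon
        have := hB0 i
        nlinarith
      have h4 : A i ≤ 2 * (A i * B i) := by nlinarith [hA0 i]
      show A i + Real.sqrt κ ≤ _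
      linarith
  -- the sums
  have hs2 : ∑ i, c.s i * (A i * B i) ^ 2 = κ := by
    rw [hκ]
    unfold kap
    apply Finset.sum_congr rfl
    intro i _
    rw [hA, hB]
    ring
  have hs1 : ∑ i, c.s i * (A i * B i) ≤ Real.sqrt k * Real.sqrt κ := by
    have hcs := Finset.sum_sq_le_sum_mul_sum_of_sq_le_mul (Finset.univ : Finset (Fin n))
      (r := fun i => c.s i * (A i * B i)) (f := fun i => c.s i)
      (g := fun i => c.s i * (A i * B i) ^ 2) (fun i _ => c.s0 i)
      (fun i _ => mul_nonneg (c.s0 i) (sq_nonneg _)) (fun i _ => le_of_eq (by ring))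
    rw [hs2, sum_s c] at hcs
    rw [← Real.sqrt_mul (Nat.cast_nonneg k)]
    exact Real.le_sqrt_of_sq_le hcs
  rw [cut_Q c hp hp3 l l' hne, abs_mul, abs_of_pos (by linarith : 0 < p)]
  have hterm : ∀ i, |c.s i * c.e i l * c.e i l' * av c p fun x => om p (c.z i x) * (x l * x l')| ≤
      K * (p - 2) * (2 * (c.s i * (A i * B i) ^ 2) + Real.sqrt κ * (c.s i * (A i * B i))) := by
    intro i
    have e1 : |c.e i l| ≤ A i := cut_le S _ l hl
    have e2 : |c.e i l'| ≤ B i := cut_le Sᶜ _ l' hl'c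
    have e3 := hTi i
    have hs := c.s0 i
    rw [abs_mul, abs_mul, abs_mul, abs_of_nonneg hs]
    have e4 : c.s i * |c.e i l| * |c.e i l'| ≤ c.s i * (A i * B i) := by
      rw [mul_assoc]
      exact mul_le_mul_of_nonneg_left (mul_le_mul e1 e2 (abs_nonneg _) (hA0 i)) hs
    calc c.s i * |c.e i l| * |c.e i l'| * |av c p fun x => om p (c.z i x) * (x l * x l')|
        ≤ (c.s i * (A i * B i)) * (K * (p - 2) * (2 * (A i * B i) + Real.sqrt κ)) :=
          mul_le_mul e4 e3 (abs_nonneg _) (mul_nonneg hs (mul_nonneg (hA0 i) (hB0 i)))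
      _ = _ := by ring
  have hsum : |∑ i, c.s i * c.e i l * c.e i l' *
      av c p fun x => om p (c.z i x) * (x l * x l')| ≤
      K * (p - 2) * (2 * κ + Real.sqrt κ * (Real.sqrt k * Real.sqrt κ)) := by
    refine (Finset.abs_sum_le_sum_abs _ _).trans ?_
    refine (Finset.sum_le_sum fun i _ => hterm i).trans ?_
    rw [← Finset.mul_sum, Finset.sum_add_distrib, ← Finset.mul_sum, ← Finset.mul_sum, hs2]
    apply mul_le_mul_of_nonneg_left _ (by positivity)
    have := mul_le_mul_of_nonneg_left hs1 (Real.sqrt_nonneg κ)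
    linarith
  have hsq : Real.sqrt κ * (Real.sqrt k * Real.sqrt κ) = Real.sqrt k * κ := by
    have := Real.mul_self_sqrt hκ0
    calc Real.sqrt κ * (Real.sqrt k * Real.sqrt κ) = Real.sqrt k * (Real.sqrt κ * Real.sqrt κ) := by
          ring
      _ = _ := by rw [this]
  rw [hsq] at hsum
  have hfin : 0 ≤ K * (p - 2) * (2 * κ + Real.sqrt k * κ) := by
    have := Real.sqrt_nonneg (k : ℝ)
    positivity
  calc p * |∑ i, c.s i * c.e i l * c.e i l' *
        av c p fun x => om p (c.z i x) * (x l * x l')|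
      ≤ 3 * (K * (p - 2) * (2 * κ + Real.sqrt k * κ)) :=
        mul_le_mul hp3 hsum (abs_nonneg _) (by norm_num)
    _ = 3 * K * (2 + Real.sqrt k) * (p - 2) * κ := by ring

end Pool.Agent.Helper67.BT
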